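import Pool.Agent.MP_8322c3_lc.Collapse
import Pool.Agent.MP_8322c3_lc.AmalgNeg

set_option autoImplicit false

open scoped Cardinal Ordinal

namespace Pool.Agent.Results.MP_8322c3_lc.NotAbsolute

open Pool.Agent.MP8322

variable {P : Type} [Preorder P] [OrderTop P] {c : P → U} {M : Set U} {G : Set P}

/-- codes of sentences are not moved by the collapse -/
theorem pj_code (hM : Env c M) (hG : IsGen c M G)
    (hct : ∀ x ∈ M, {y : U | y ∈ x}.Countable → ∀ y ∈ x, y ∈ M) {n : ℕ} (φ : Form n) :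
    φ.code ∈ M → pj c M G φ.code = φ.code := by
  have hnum : ∀ k, pj c M G (num k) = num k := pj_num hM hG
  induction φ with
  | eq i j =>
    intro h
    simp only [Form.code] at h ⊢
    have h1 := hM.snd _ _ h
    rw [pj_pair hM hG (hM.num _) h1, pj_pair hM hG (hM.num _) (hM.num _), hnum, hnum, hnum]
  | rel k i j =>
    intro h
    simp only [Form.code] at h ⊢
    have h1 := hM.snd _ _ h
    have h2 := hM.snd _ _ h1
    rw [pj_pair hM hG (hM.num _) h1, pj_pair hM hG (hM.num _) h2,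
      pj_pair hM hG (hM.num _) (hM.num _), hnum, hnum, hnum, hnum]
  | neg φ ih =>
    intro h
    simp only [Form.code] at h ⊢
    have h1 := hM.snd _ _ h
    rw [pj_pair hM hG (hM.num _) h1, ih h1, hnum]
  | conj φ ih =>
    intro h
    simp only [Form.code] at h ⊢
    have h1 := hM.snd _ _ h
    have hcnt : {y : U | y ∈ (ZFSet.range fun k : ℕ =>
        ZFSet.pair (num k) (φ k).code : U)}.Countable := by
      refine (Set.countable_range fun k : ℕ => ZFSet.pair (num k) (φ k).code).mono ?_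
      intro y hy
      obtain ⟨k, hk⟩ := ZFSet.mem_range.1 hy
      exact ⟨k, hk⟩
    have h2 : ∀ k, ZFSet.pair (num k) (φ k).code ∈ M := fun k =>
      hct _ h1 hcnt _ (ZFSet.mem_range.2 ⟨k, rfl⟩)
    rw [pj_pair hM hG (hM.num _) h1, hnum]
    congr 1
    have key : ∀ k, pj c M G (ZFSet.pair (num k) (φ k).code) = ZFSet.pair (num k) (φ k).code := by
      intro k
      have h3 := hM.snd _ _ (h2 k)
      rw [pj_pair hM hG (hM.num _) h3, ih k h3, hnum]
    ext v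
    rw [mem_pj hM hG]
    constructor
    · rintro ⟨y, _, hy, rfl⟩
      obtain ⟨k, rfl⟩ := ZFSet.mem_range.1 hy
      rw [key]
      exact ZFSet.mem_range.2 ⟨k, rfl⟩
    · intro hv
      obtain ⟨k, rfl⟩ := ZFSet.mem_range.1 hv
      exact ⟨_, h2 k, ZFSet.mem_range.2 ⟨k, rfl⟩, key k⟩
  | all φ ih =>
    intro h
    simp only [Form.code] at h ⊢
    have h1 := hM.snd _ _ h
    rw [pj_pair hM hG (hM.num _) h1, ih h1, hnum]

/-- the positive direction, with the auxiliary objects of the ground model -/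
theorem spec_of_Q (hM : Env c M) (hG : IsGen c M G) (ho : om1 ∈ M) {K : Set U} (hK : Nice K)
    (hsub : Gr c M G ⊆ K) (hom : IsOmega1 K (pj c M G om1))
    (hQ : ∀ S₁ ∈ K, ∀ S₂ ∈ K, ∃ r ∈ K, ∀ α ∈ pj c M G om1,
      (∃ n, ¬ (num n ∈ r ↔ ZFSet.pair α (num n) ∈ S₁)) ∧
      (∃ n, ¬ (num n ∈ r ↔ ZFSet.pair α (num n) ∈ S₂))) : AlephOneInSpec K phi := by
  obtain ⟨t, ht, ht'⟩ := gr_t hM hG ho
  obtain ⟨s, hs, hs'⟩ := gr_s hM hG ho
  obtain ⟨E, hE, hE'⟩ := gr_E hM hG ho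
  refine spec_of_rich hK hom (hsub ht) ht' (hsub hs) ?_ ?_ (hsub hE) hE' hQ
  · intro α hα β hβ
    obtain ⟨γ, hγ⟩ := hs'.2 (ZFSet.pair α β) (ZFSet.pair_mem_prod.2 ⟨hα, hβ⟩)
    exact ⟨γ, (ZFSet.pair_mem_prod.1 (hs'.1.1.1 hγ)).1, hγ⟩
  · intro γ hγ w w' hw hw'
    obtain ⟨v, _, hv⟩ := hs'.1.1.2 γ hγ
    rw [hv w hw, hv w' hw']

/-- the negative direction -/
theorem not_spec_of_F (hM : Env c M) (hG : IsGen c M G) (ho : om1 ∈ M) {K : Set U} (hK : Nice K)
    (hsub : Gr c M G ⊆ K) (hom : IsOmega1 K (pj c M G om1))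
    (hF : ∃ F ∈ K, IsBij (pj c M G om1)
      (ZFSet.sep (fun y => y ∈ K) (ZFSet.powerset ZFSet.omega)) F) : ¬ AlephOneInSpec K phi := by
  obtain ⟨σ, hσ, hσ'⟩ := gr_sigma hM hG ho
  obtain ⟨F, hF, hF'⟩ := hF
  exact fun h => not_spec_of_CH hK hom hF hF' (hsub hσ) hσ' h.2

/-- `ℵ₁`-amalgamation for `L_{ω₁,ω}`-sentences is not absolute: there are transitive models
`V ⊆ W` of ZFC with the same ordinals and an `L_{ω₁,ω}`-sentence `φ ∈ V` such that exactly one of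
`V`, `W` satisfies that `ℵ₁` is in the amalgamation spectrum of `φ`. -/
theorem result : ∃ V W : Set U, IsTransModelZFC V ∧ IsTransModelZFC W ∧ V ⊆ W ∧
    (∀ α : U, α.IsOrdinal → (α ∈ V ↔ α ∈ W)) ∧
    ∃ φ : Form 0, φ.code ∈ V ∧ ¬ (AlephOneInSpec V φ ↔ AlephOneInSpec W φ) := by
  by_cases hCH : (𝔠 : Cardinal.{0}) = ℵ₁
  · -- add many Cohen reals
    obtain ⟨c, d, M, G, hM, hG, hct⟩ := exists_cohen (ℵ_ 2 : Cardinal.{0}).out
    refine ⟨Gr c M G, Ext c M G, Gr.zfc hM.toEnv hG, Ext.zfc hM.toEnv hG,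
      Gr_subset_Ext hM.toEnv, same_ordinals hM.toEnv hG, phi, ?_, ?_⟩
    · exact ⟨_, hM.code, pj_code hM.toEnv hG hct phi hM.code⟩
    · intro h
      refine not_spec_of_F hM.toEnv hG hM.om1 (Gr.nice hM.toEnv hG) (Set.Subset.refl _)
        (gr_isOmega1 hM.toEnv hG hM.om1) (gr_F hM.toEnv hG hM.om1 hCH) (h.2 ?_)
      exact spec_of_Q hM.toEnv hG hM.om1 (Ext.nice hM.toEnv hG) (Gr_subset_Ext hM.toEnv)
        (cohen_omega1 hM hG) (cohen_Q (Cardinal.mk_out _) hM hG)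
  · -- collapse the continuum
    obtain ⟨c, M, G, hM, hG, hct⟩ := exists_collapse
    refine ⟨Gr c M G, Ext c M G, Gr.zfc hM.toEnv hG, Ext.zfc hM.toEnv hG,
      Gr_subset_Ext hM.toEnv, same_ordinals hM.toEnv hG, phi, ?_, ?_⟩
    · exact ⟨_, hM.code, pj_code hM.toEnv hG hct phi hM.code⟩
    · intro h
      refine not_spec_of_F hM.toEnv hG hM.om1 (Ext.nice hM.toEnv hG) (Gr_subset_Ext hM.toEnv)
        (col_omega1 hM hG) (col_F hM hG) (h.1 ?_)
      exact spec_of_Q hM.toEnv hG hM.om1 (Gr.nice hM.toEnv hG) (Set.Subset.refl _)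
        (gr_isOmega1 hM.toEnv hG hM.om1) (gr_Q hM.toEnv hG hM.om1 hCH)

end Pool.Agent.Results.MP_8322c3_lc.NotAbsolute
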